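import Pool.Agent.PST.StmtsK1

/-!
# PST, row EXA (helper24): extension of additive functions
-/

set_option autoImplicit false

namespace Pool.Agent.PST.H24

/-- A subspace is a retract. -/
theorem retr0 (k A : Type) [Field k] [AddCommGroup A] [Module k A] (T : Submodule k A) :
    ∃ p : A →+ A, (∀ x, p x ∈ T) ∧ ∀ x ∈ T, p x = x := by
  obtain ⟨p, hp⟩ := LinearMap.exists_leftInverse_of_injective T.subtype T.ker_subtype
  refine ⟨(T.subtype.comp p).toAddMonoidHom, fun x => ?_, fun x hx => ?_⟩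
  · exact (p x).2
  · have h2 : p x = ⟨x, hx⟩ := LinearMap.congr_fun hp ⟨x, hx⟩
    change ((p x : T) : A) = x
    rw [h2]

/-- A subgroup of an elementary abelian group is a retract. -/
theorem retr (ℓ : ℕ) [Fact ℓ.Prime] (A : Type) [AddCommGroup A] (hA : ∀ x : A, ℓ • x = 0)
    (T : AddSubgroup A) : ∃ p : A →+ A, (∀ x, p x ∈ T) ∧ ∀ x ∈ T, p x = x := by
  let _ : Module (ZMod ℓ) A := AddCommGroup.zmodModule hA
  exact retr0 (ZMod ℓ) A (AddSubgroup.toZModSubmodule ℓ T)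

theorem exa : ExaStmt := by
  intro ℓ _ F V _ _ _ W T h hWT hv hadd hW0
  have hcl : ∀ s ∈ T, ∀ t ∈ T, (QuotientGroup.mk s : V ⧸ W) = QuotientGroup.mk t → h s = h t := by
    intro s hs t ht hst
    have h1 : s⁻¹ * t ∈ W := QuotientGroup.eq.1 hst
    have h2 : h (s * (s⁻¹ * t)) = h s + h (s⁻¹ * t) := hadd s hs _ (hWT h1)
    rw [hW0 _ h1, add_zero, mul_inv_cancel_left] at h2
    exact h2.symm
  have hA : ∀ x : Additive (V ⧸ W), ℓ • x = 0 := by
    intro x
    obtain ⟨v, hv1⟩ := QuotientGroup.mk_surjective (s := W) (Additive.toMul x)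
    have h1 : (Additive.toMul x) ^ ℓ = 1 := by
      rw [← hv1, ← QuotientGroup.mk_pow]
      exact (QuotientGroup.eq_one_iff _).2 (hv v)
    exact h1
  obtain ⟨p, hp1, hp2⟩ := retr ℓ (Additive (V ⧸ W)) hA
    ((T.map (QuotientGroup.mk' W)).toAddSubgroup)
  have hex : ∀ v : V, ∃ t ∈ T, Additive.ofMul (QuotientGroup.mk t : V ⧸ W) =
      p (Additive.ofMul (QuotientGroup.mk v : V ⧸ W)) := by
    intro v
    obtain ⟨t, ht, ht2⟩ := hp1 (Additive.ofMul (QuotientGroup.mk v : V ⧸ W))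
    exact ⟨t, ht, ht2⟩
  choose t ht ht2 using hex
  refine ⟨fun v => h (t v), fun u v => ?_, fun s hs => ?_⟩
  · rw [← hadd _ (ht u) _ (ht v)]
    refine hcl _ (ht _) _ (T.mul_mem (ht u) (ht v)) ?_
    have h1 : Additive.ofMul (QuotientGroup.mk (t (u * v)) : V ⧸ W) =
        Additive.ofMul (QuotientGroup.mk (t u) : V ⧸ W) +
          Additive.ofMul (QuotientGroup.mk (t v) : V ⧸ W) := by
      rw [ht2, ht2, ht2, QuotientGroup.mk_mul, ofMul_mul, map_add]
    exact h1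
  · refine hcl _ (ht _) _ hs ?_
    have h3 := ht2 s
    have h4 := hp2 (Additive.ofMul (QuotientGroup.mk s : V ⧸ W)) ⟨s, hs, rfl⟩
    exact h3.trans h4

end Pool.Agent.PST.H24
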