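import Pool.Agent.PST.StmtsET2

/-!
# PST, row FUN (helper24): fullness lifts
-/

open scoped BigOperators TensorProduct

noncomputable section

namespace Pool.Agent.PST.H24

open Pool.Agent.PFD.D2 (Cdv FibG)
open Pool.Agent.PST.ET

section aux

variable {R D : Type} [CommRing R] [Ring D] [Algebra R D]

/-- the two-sided ideal generated by `j` -/
def idl (R : Type) {D : Type} [CommRing R] [Ring D] [Algebra R D] (j : D) : Submodule R D :=
  Submodule.span R {x : D | ∃ s t : D, x = s * j * t}

theorem idl_l (j a : D) {x : D} (hx : x ∈ idl R j) : a * x ∈ idl R j := by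
  unfold idl at hx
  induction hx using Submodule.span_induction with
  | mem x hx =>
    obtain ⟨s, t, rfl⟩ := hx
    exact Submodule.subset_span ⟨a * s, t, by simp only [mul_assoc]⟩
  | zero => rw [mul_zero]; exact Submodule.zero_mem _
  | add x y _ _ hx hy => rw [mul_add]; exact Submodule.add_mem _ hx hy
  | smul r x _ hx => rw [mul_smul_comm]; exact Submodule.smul_mem _ r hx

theorem idl_r (j a : D) {x : D} (hx : x ∈ idl R j) : x * a ∈ idl R j := by
  unfold idl at hx
  induction hx using Submodule.span_induction with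
  | mem x hx =>
    obtain ⟨s, t, rfl⟩ := hx
    exact Submodule.subset_span ⟨s, t * a, by simp only [mul_assoc]⟩
  | zero => rw [zero_mul]; exact Submodule.zero_mem _
  | add x y _ _ hx hy => rw [add_mul]; exact Submodule.add_mem _ hx hy
  | smul r x _ hx => rw [smul_mul_assoc]; exact Submodule.smul_mem _ r hx

end aux

/-- row FUN (centrality of `b` is not needed) -/
theorem fun_ (krs : KrsStmt) : FunStmt := by
  intro R F D H _ _ _ _ c _ _ _ _ _ f b j hb _ hqb
  have hlift : ∀ h ∈ Submodule.span F {x : H | ∃ s t : H, x = s * f.q j * t},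
      ∃ i ∈ idl R j, f.q i = h := by
    intro h hh
    induction hh using Submodule.span_induction with
    | mem x hx =>
      obtain ⟨s, t, rfl⟩ := hx
      obtain ⟨s', rfl⟩ := f.surj s
      obtain ⟨t', rfl⟩ := f.surj t
      exact ⟨s' * j * t', Submodule.subset_span ⟨s', t', rfl⟩, by rw [map_mul, map_mul]⟩
    | zero => exact ⟨0, Submodule.zero_mem _, map_zero _⟩
    | add x y _ _ hx hy =>
      obtain ⟨i, hi, rfl⟩ := hx
      obtain ⟨i', hi', rfl⟩ := hy
      exact ⟨i + i', Submodule.add_mem _ hi hi', map_add _ _ _⟩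
    | smul r x _ hx =>
      obtain ⟨i, hi, rfl⟩ := hx
      obtain ⟨r', rfl⟩ := c.surj r
      refine ⟨r' • i, Submodule.smul_mem _ r' hi, ?_⟩
      rw [Algebra.smul_def, map_mul, f.sc, ← Algebra.smul_def]
  obtain ⟨i, hi, hqi⟩ := hlift _ hqb
  obtain ⟨d, hd⟩ := f.ker (b - i) (by rw [map_sub, hqi, sub_self])
  have hbd : b = i + c.π • d := by rw [← hd]; abel
  refine krs R F D c (idl R j) b fun n => ?_
  induction n with
  | zero => exact ⟨b, by rw [pow_zero, one_smul, sub_self]; exact Submodule.zero_mem _⟩
  | succ n ih =>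
    obtain ⟨y, hy⟩ := ih
    refine ⟨d * y, ?_⟩
    have h1 : b - c.π ^ (n + 1) • (d * y) = b * (b - c.π ^ n • y) + c.π ^ n • (i * y) := by
      have h2 : b * y = i * y + c.π • (d * y) := by
        conv_lhs => rw [hbd]
        rw [add_mul, smul_mul_assoc]
      rw [mul_sub, hb, mul_smul_comm, h2, smul_add, smul_smul, pow_succ]
      abel
    rw [h1]
    exact Submodule.add_mem _ (idl_l j b hy) (Submodule.smul_mem _ _ (idl_r j y hi))

end Pool.Agent.PST.H24
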