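import Pool.Agent.PST.StmtsUC
import Pool.Agent.Helper30_PSS.S3All

/-!
# PST, row QCL (helper24): the quotient is in the class
-/

open scoped BigOperators TensorProduct PowerSeries

noncomputable section

namespace Pool.Agent.PST.H24

open Pool.Agent.PFC (tw IsTv)
open Pool.Agent.PFD.D2b (FrR)
open Pool.Agent.PSS
open Pool.Agent.PSS.S0
open Pool.Agent.PST.UC

section aux

variable {R V A : Type} [CommRing R] [CommGroup V] [Ring A] [Algebra R A]

theorem mem_fx (α : V →* A) (P : Subgroup V) (a : A) :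
    a ∈ FxR (cw R α) P ↔ ∀ h ∈ P, α h * a = a * α h := by
  have key : ∀ h : V, cw R α h a = α h * (a * α h⁻¹) := fun h => rfl
  constructor
  · intro ha h hh
    have h1 : cw R α h a = a := ha h hh
    rw [key h] at h1
    have h2 : α h * (a * α h⁻¹) * α h = a * α h := by rw [h1]
    have h3 : α h⁻¹ * α h = 1 := by rw [← map_mul, inv_mul_cancel, map_one]
    rw [mul_assoc, mul_assoc, h3, mul_one] at h2
    exact h2
  · intro ha h hh
    change cw R α h a = a
    have h3 : α h * α h⁻¹ = 1 := by rw [← map_mul, mul_inv_cancel, map_one]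
    rw [key h, ← mul_assoc, ha h hh, mul_assoc, h3, mul_one]

theorem fx_mul (α : V →* A) (P : Subgroup V) {a b : A} (ha : a ∈ FxR (cw R α) P)
    (hb : b ∈ FxR (cw R α) P) : a * b ∈ FxR (cw R α) P := by
  rw [mem_fx] at *
  intro h hh
  rw [← mul_assoc, ha h hh, mul_assoc, hb h hh, mul_assoc]

theorem fx_one (α : V →* A) (P : Subgroup V) : (1 : A) ∈ FxR (cw R α) P := by
  rw [mem_fx]
  intro h _
  rw [mul_one, one_mul]

theorem fx_al (α : V →* A) (P : Subgroup V) (v : V) : α v ∈ FxR (cw R α) P := by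
  rw [mem_fx]
  intro h _
  rw [← map_mul, ← map_mul, mul_comm]

theorem fx_mono (α : V →* A) {P P' : Subgroup V} (hP : P ≤ P') {a : A}
    (ha : a ∈ FxR (cw R α) P') : a ∈ FxR (cw R α) P := fun h hh => ha h (hP hh)

/-- polynomials in a fixed element are fixed -/
theorem fx_aeval (α : V →* A) (P : Subgroup V) {a : A} (ha : a ∈ FxR (cw R α) P)
    (g : Polynomial R) : Polynomial.aeval a g ∈ FxR (cw R α) P := by
  induction g using Polynomial.induction_on' with
  | add p q hp hq =>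
    rw [map_add]
    exact (FxR (cw R α) P).add_mem hp hq
  | monomial n r =>
    rw [Polynomial.aeval_monomial, ← Algebra.smul_def]
    refine (FxR (cw R α) P).smul_mem r ?_
    induction n with
    | zero => rw [pow_zero]; exact fx_one α P
    | succ n ih => rw [pow_succ]; exact fx_mul α P ih ha

theorem bk_bot {H M : Type} [Group H] [AddCommGroup M] [Module R M] (ρ : H →* (M →ₗ[R] M))
    {m : M} (hm : m ∈ BKR ρ ⊥) : m = 0 := by
  have h1 : BKR ρ (⊥ : Subgroup H) ≤ ⊥ := by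
    refine Submodule.span_le.2 ?_
    rintro n ⟨P', S, m', hlt, _⟩
    exact absurd hlt not_lt_bot
  exact (Submodule.mem_bot R).1 (h1 hm)

end aux

section brauer

variable {R V A B : Type} [CommRing R] [CommGroup V] [Ring A] [Algebra R A] [Ring B] [Algebra R B]

theorem aug_fx (α : V →* A) (N Q : Subgroup V) {z : A}
    (hz : z ∈ Aug R (α.comp N.subtype) (FxR (cw R α) Q)) : z ∈ FxR (cw R α) Q := by
  have h1 : Aug R (α.comp N.subtype) (FxR (cw R α) Q) ≤ FxR (cw R α) Q := by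
    refine Submodule.span_le.2 ?_
    rintro _ ⟨n, b, hb, rfl⟩
    exact fx_mul α Q ((FxR (cw R α) Q).sub_mem (fx_al α Q n) (fx_one α Q)) hb
  exact h1 hz

theorem be_sub (α : V →* A) (Q : Subgroup V) (αB : V →* B) (β : A → B) (h : IsBQ R α Q αB β)
    {a b : A} (ha : a ∈ FxR (cw R α) Q) (hb : b ∈ FxR (cw R α) Q) :
    β (a - b) = β a - β b := by
  have h1 : β (a - b + b) = β (a - b) + β b :=
    h.add _ ((FxR (cw R α) Q).sub_mem ha hb) _ hb
  rw [sub_add_cancel] at h1
  rw [h1, add_sub_cancel_right]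

/-- the Brauer map sends the augmentation part into the augmentation ideal -/
theorem be_aug (α : V →* A) (N Q : Subgroup V) (αB : V →* B) (β : A → B)
    (h : IsBQ R α Q αB β) {z : A} (hz : z ∈ Aug R (α.comp N.subtype) (FxR (cw R α) Q)) :
    β z ∈ Aug R (αB.comp N.subtype) ⊤ := by
  have h0 : β 0 = 0 := by
    have h1 := be_sub α Q αB β h (fx_one α Q) (fx_one α Q)
    rwa [sub_self, sub_self] at h1
  unfold Aug at hz
  induction hz using Submodule.span_induction with
  | mem x hx =>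
    obtain ⟨n, b, hb, rfl⟩ := hx
    refine Submodule.subset_span ⟨n, β b, trivial, ?_⟩
    change β ((α n - 1) * b) = (αB n - 1) * β b
    rw [h.mul _ ((FxR (cw R α) Q).sub_mem (fx_al α Q n) (fx_one α Q)) _ hb,
      be_sub α Q αB β h (fx_al α Q n) (fx_one α Q), h.om, h.one]
  | zero => rw [h0]; exact Submodule.zero_mem _
  | add x y hx hy ihx ihy =>
    rw [h.add x (aug_fx α N Q hx) y (aug_fx α N Q hy)]
    exact Submodule.add_mem _ ihx ihy
  | smul r x hx ih =>
    rw [h.smul r x (aug_fx α N Q hx)]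
    exact Submodule.smul_mem _ r ih

/-- elements of the augmentation ideal of the Brauer quotient lift -/
theorem aug_lift (α : V →* A) (N Q : Subgroup V) (αB : V →* B) (β : A → B)
    (h : IsBQ R α Q αB β) {w : B} (hw : w ∈ Aug R (αB.comp N.subtype) ⊤) :
    ∃ z ∈ Aug R (α.comp N.subtype) (FxR (cw R α) Q), β z = w := by
  have h0 : β 0 = 0 := by
    have h1 := be_sub α Q αB β h (fx_one α Q) (fx_one α Q)
    rwa [sub_self, sub_self] at h1
  unfold Aug at hw
  induction hw using Submodule.span_induction with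
  | mem x hx =>
    obtain ⟨n, b, _, rfl⟩ := hx
    obtain ⟨a, ha, rfl⟩ := h.surj b
    refine ⟨(α n - 1) * a, Submodule.subset_span ⟨n, a, ha, rfl⟩, ?_⟩
    change β ((α n - 1) * a) = (αB n - 1) * β a
    rw [h.mul _ ((FxR (cw R α) Q).sub_mem (fx_al α Q n) (fx_one α Q)) _ ha,
      be_sub α Q αB β h (fx_al α Q n) (fx_one α Q), h.om, h.one]
  | zero => exact ⟨0, Submodule.zero_mem _, h0⟩
  | add x y hx hy ihx ihy =>
    obtain ⟨z, hz, rfl⟩ := ihx
    obtain ⟨z', hz', rfl⟩ := ihy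
    exact ⟨z + z', Submodule.add_mem _ hz hz',
      h.add _ (aug_fx α N Q hz) _ (aug_fx α N Q hz')⟩
  | smul r x hx ih =>
    obtain ⟨z, hz, rfl⟩ := ih
    exact ⟨r • z, Submodule.smul_mem _ r hz, h.smul r z (aug_fx α N Q hz)⟩

end brauer

/-- the elements which act trivially on `Q` -/
def cenE {V E : Type} [CommGroup V] [Group E] (φ : E →* MulAut V) (Q : Subgroup V) :
    Subgroup E where
  carrier := {e | ∀ q ∈ Q, φ e q = q}
  one_mem' := fun q _ => by rw [map_one]; rfl
  mul_mem' := by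
    intro a b ha hb q hq
    rw [map_mul, MulAut.mul_apply, hb q hq, ha q hq]
  inv_mem' := by
    intro a ha q hq
    rw [map_inv]
    have h1 := ha q hq
    have h2 : (φ a)⁻¹ (φ a q) = q := by
      rw [← MulAut.mul_apply, inv_mul_cancel, MulAut.one_apply]
    rw [h1] at h2
    exact h2

/-- row QCL -/
theorem qcl (cil : CilStmt) (qrf : QrfStmt) (qfr : QfrStmt) (qsc : QscStmt) : QclStmt := by
  classical
  intro ℓ _ F V E A H Ω _ _ _ _ _ _ _ _ _ _ _ _ φ α N _ φH αH π b c hV hE hCl hN hQt hφN hφH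
  have hℓ : (ℓ : F) = 0 := CharP.cast_eq_zero F ℓ
  obtain ⟨Ω', i1, i2, b', c', σ, s, m, hq⟩ :=
    qfr ℓ F V E A H Ω φ α N φH αH π b c hV hE hQt hN hφN hφH
  obtain ⟨S, hS, hP⟩ :=
    qsc ℓ F V E A H Ω Ω' φ α N φH αH π b c b' c' σ s m hℓ hV hQt hN hq
  obtain ⟨lam, K, iK, x, y, hRF, u, hu⟩ := hCl.rt
  refine ⟨?_, ?_, ?_, ?_, ?_⟩
  · have := hCl.fin
    exact Module.Finite.of_surjective π.toLinearMap hQt.surj
  · exact ⟨Ω', i1, i2, b', c', hq.fr, hq.st⟩
  · intro e
    obtain ⟨z, z', h1, h2, h3⟩ := hCl.uni e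
    refine ⟨π z, π z', by rw [← map_mul, h1, map_one], by rw [← map_mul, h2, map_one], ?_⟩
    intro w
    obtain ⟨v, rfl⟩ := QuotientGroup.mk_surjective w
    rw [hφH, hQt.om, hQt.om, ← map_mul, ← map_mul, h3]
  · have : Fintype N := Fintype.ofFinite _
    obtain ⟨lamH, _, hRF2⟩ := qrf F V A H K α N αH π lam x y hQt hRF
    refine ⟨lamH, K, iK, _, _, hRF2, π u, ?_⟩
    have h1 : ∑ k, π (x k) * π (y k) = π (∑ k, x k * y k) := by
      rw [map_sum]
      exact Finset.sum_congr rfl fun k _ => (map_mul π _ _).symm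
    rw [h1, ← map_mul, hu, map_one]
  · intro Q' e he hee hcom heT
    -- the preimage
    have hNQ : N ≤ Q'.comap (QuotientGroup.mk' N) := by
      intro n hn
      rw [Subgroup.mem_comap, QuotientGroup.mk'_apply, (QuotientGroup.eq_one_iff n).2 hn]
      exact Q'.one_mem
    generalize hQdef : Q'.comap (QuotientGroup.mk' N) = Q at hNQ
    have hQm : Q.map (QuotientGroup.mk' N) = Q' := by
      rw [← hQdef]
      exact Subgroup.map_comap_eq_self_of_surjective (QuotientGroup.mk'_surjective N) Q'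
    have hTm : (⊤ : Subgroup V).map (QuotientGroup.mk' N) = ⊤ :=
      Subgroup.map_top_of_surjective _ (QuotientGroup.mk'_surjective N)
    obtain ⟨p1, p2, p3, p4, p5⟩ := hP Q hNQ
    obtain ⟨t1, t2, t3, t4, t5⟩ := hP ⊤ le_top
    rw [hQm] at p1 p2 p3 p4
    rw [hTm] at t1 t2 t3 t4
    have haT : S e ∈ FxR (cw F α) ⊤ := t1 e he
    have haB : S e ∈ BKR (cw F α) ⊤ := t3 e heT
    have haQ : S e ∈ FxR (cw F α) Q := fx_mono α le_top haT
    have hπa : π (S e) = e := hS e
    generalize S e = a at haT haB haQ hπa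
    -- the Brauer quotient
    obtain ⟨B, iB1, iB2, αB, β, hβ⟩ := All30.bqx F V A α Q
    have hbk : ∀ z ∈ BKR (cw F α) Q, z ∈ FxR (cw F α) Q :=
      fun z hz => All30.bkf F V A (cw F α) Q hz
    -- elements which vanish modulo the kernel
    have hmod : ∀ z ∈ FxR (cw F α) Q, π z ∈ BKR (cw F αH) Q' →
        β z ∈ Aug F (αB.comp N.subtype) ⊤ := by
      intro z hz hπz
      have h1 : S (π z) ∈ BKR (cw F α) Q := p3 _ hπz
      have h2 : z - S (π z) ∈ FxR (cw F α) Q := (FxR (cw F α) Q).sub_mem hz (hbk _ h1)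
      have h3 : π (z - S (π z)) = 0 := by rw [map_sub, hS, sub_self]
      have h4 := be_aug α N Q αB β hβ (p5 _ h2 h3)
      rw [be_sub α Q αB β hβ hz (hbk _ h1), (hβ.ker _ (hbk _ h1)).2 h1, sub_zero] at h4
      exact h4
    have hcen : ∀ (n : N) (w : B), (αB.comp N.subtype) n * w = w * (αB.comp N.subtype) n := by
      intro n w
      obtain ⟨z, hz, rfl⟩ := hβ.surj w
      change αB n * β z = β z * αB n
      rw [← hβ.om, ← hβ.mul _ (fx_al α Q n) _ hz, ← hβ.mul _ hz _ (fx_al α Q n),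
        hQt.cen n n.2 z]
    have hb1 : β a * β a - β a ∈ Aug F (αB.comp N.subtype) ⊤ := by
      rw [← hβ.mul _ haQ _ haQ, ← be_sub α Q αB β hβ (fx_mul α Q haQ haQ) haQ]
      refine hmod _ ((FxR (cw F α) Q).sub_mem (fx_mul α Q haQ haQ) haQ) ?_
      rw [map_sub, map_mul, hπa]
      exact hee
    have hb2 : ∀ w : B, β a * w - w * β a ∈ Aug F (αB.comp N.subtype) ⊤ := by
      intro w
      obtain ⟨z, hz, rfl⟩ := hβ.surj w
      rw [← hβ.mul _ haQ _ hz, ← hβ.mul _ hz _ haQ,
        ← be_sub α Q αB β hβ (fx_mul α Q haQ hz) (fx_mul α Q hz haQ)]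
      refine hmod _ ((FxR (cw F α) Q).sub_mem (fx_mul α Q haQ hz) (fx_mul α Q hz haQ)) ?_
      rw [map_sub, map_mul, map_mul, hπa]
      exact hcom _ (p2 z hz)
    have hNp : IsPGroup ℓ N := hV.to_subgroup N
    obtain ⟨f, g, hf1, hf2, hf3, hf4⟩ :=
      cil ℓ F N B (αB.comp N.subtype) (β a) hℓ hNp hcen hb1 hb2
    -- `f` is in the Brauer kernel
    have hbb := All30.bbk ℓ F V E A B K φ α Q αB β lam x y ⊤ hℓ hV hCl.per hRF hβ
    have htop : (⊤ : Subgroup V) ⊔ Q = ⊤ := top_sup_eq Q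
    rw [htop] at hbb
    obtain ⟨hba1, hba2⟩ := hbb.1 a haT
    have hbaB : β a ∈ BKR (cw F αB) ⊤ := hba2.2 haB
    have hfB : f ∈ BKR (cw F αB) ⊤ := by
      rw [hf1]
      exact (All30.bki F V B αB ⊤ _ (fx_aeval αB ⊤ hba1 g) _ hbaB).2
    have hfT : f ∈ FxR (cw F αB) ⊤ := by
      rw [hf1]
      exact fx_mul αB ⊤ hba1 (fx_aeval αB ⊤ hba1 g)
    have hcl := All30.bcl ℓ F V E A B φ α Q αB β (cenE φ Q) hV hE hCl hβ (fun e => Iff.rfl)
    have hf0 : f = 0 := by
      refine bk_bot (cw F αB) (hcl.blk ⊥ f hfT ?_ (fun w _ => ?_) hfB)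
      · rw [hf2, sub_self]
        exact Submodule.zero_mem _
      · rw [hf3 w, sub_self]
        exact Submodule.zero_mem _
    have hbaug : β a ∈ Aug F (αB.comp N.subtype) ⊤ := by
      rw [hf0, zero_sub] at hf4
      exact (Submodule.neg_mem_iff _).1 hf4
    obtain ⟨z, hz, hza⟩ := aug_lift α N Q αB β hβ hbaug
    have hzQ := aug_fx α N Q hz
    have h1 : a - z ∈ FxR (cw F α) Q := (FxR (cw F α) Q).sub_mem haQ hzQ
    have h2 : a - z ∈ BKR (cw F α) Q := by
      rw [← hβ.ker _ h1, be_sub α Q αB β hβ haQ hzQ, hza, sub_self]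
    have h3 : π z = 0 := by
      rw [hQt.ker]
      refine (Submodule.span_mono ?_ : _ ≤ _) hz
      rintro _ ⟨n, w, _, rfl⟩
      exact ⟨n, w, trivial, rfl⟩
    have h4 := p4 _ h2
    rw [map_sub, h3, sub_zero, hπa] at h4
    exact h4

end Pool.Agent.PST.H24
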